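import Mathlib
import Pool.Agent.H38.LR.S8.H410R2.Iface2

/-! Interface statements of TEAM-MT, part 3: the multidimensional sieve.
`ι` indexes the sieving primes `pr t`, `J` is the set of colours (linear forms `L j`), a coloured
squarefree number is `σ : ι → Option J`. -/

namespace Pool.Agent.H410R2

open Finset

section
variable {ι J : Type} [Fintype ι] [DecidableEq ι] [Fintype J] [DecidableEq J]

/-- local basis function -/
noncomputable def hl (L : J → ℕ → ℕ) (p n : ℕ) : Option J → ℝ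
  | none => 1
  | some j => (if p ∣ L j n then (p : ℝ) else 0) - 1

/-- basis function -/
noncomputable def hN (L : J → ℕ → ℕ) (pr : ι → ℕ) (σ : ι → Option J) (n : ℕ) : ℝ :=
  ∏ t, hl L (pr t) n (σ t)

/-- local basis function when `L i n` is known to have no prime factor among the sieving primes -/
noncomputable def hlI (i : J) (L : J → ℕ → ℕ) (p n : ℕ) : Option J → ℝ
  | none => 1
  | some j => if j = i then -1 else (if p ∣ L j n then (p : ℝ) else 0) - 1

/-- basis function for `S2` -/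
noncomputable def hNI (i : J) (L : J → ℕ → ℕ) (pr : ι → ℕ) (σ : ι → Option J) (n : ℕ) : ℝ :=
  ∏ t, hlI i L (pr t) n (σ t)

/-- multiplicative function of a coloured set -/
noncomputable def mulc (pr : ι → ℕ) (f : ℕ → ℝ) (σ : ι → Option J) : ℝ :=
  ∏ t, if σ t = none then 1 else f (pr t)

/-- local second moments of `hlI` under the model for `S2` -/
noncomputable def GI (i : J) (p : ℕ) : Option J → Option J → ℝ
  | none, none => 1
  | none, some j => if j = i then -1 else 1 / ((p : ℝ) - 1)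
  | some j, none => if j = i then -1 else 1 / ((p : ℝ) - 1)
  | some j, some l =>
      if j = i then (if l = i then 1 else -(1 / ((p : ℝ) - 1)))
      else if l = i then -(1 / ((p : ℝ) - 1))
      else if j = l then ((p : ℝ) ^ 2 - p - 1) / ((p : ℝ) - 1) else -(((p : ℝ) + 1) / ((p : ℝ) - 1))

/-- the model quadratic form for `S2` -/
noncomputable def QI (i : J) (pr : ι → ℕ) (c : (ι → Option J) → ℝ) : ℝ :=
  ∑ σ : ι → Option J, ∑ τ : ι → Option J, c σ * c τ * ∏ t, GI i (pr t) (σ t) (τ t)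

/-- change of basis coefficients -/
noncomputable def eps (i : J) (p : ℕ) : Option J → Option J → ℝ
  | none, none => 1
  | none, some _ => 0
  | some j, none => if j = i then -1 else 1 / ((p : ℝ) - 1)
  | some j, some l => if j = i then 0 else if j = l then (p : ℝ) / ((p : ℝ) - 1) else 0

/-- coefficients in the recentred basis -/
noncomputable def eI (i : J) (pr : ι → ℕ) (c : (ι → Option J) → ℝ) (σ : ι → Option J) : ℝ :=
  ∑ ρ : ι → Option J, c ρ * ∏ t, eps i (pr t) (ρ t) (σ t)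

end

/-- data of an admissible sieving situation -/
structure SieveData (ι J : Type) (pr : ι → ℕ) (L : J → ℕ → ℕ) (m : ℕ) : Prop where
  prime : ∀ t, (pr t).Prime
  inj : Function.Injective pr
  cop : ∀ t, (pr t).Coprime m
  sol : ∀ t j, ∃ r, ∀ n, pr t ∣ L j n ↔ n ≡ r [MOD pr t]
  excl : ∀ t i j n, pr t ∣ L i n → pr t ∣ L j n → i = j

open Classical in
/-- module T1 : upper bound for the sieve sum over an arithmetic progression -/
def S1Upper : Prop := ∀ (ι J : Type) [Fintype ι] [Fintype J]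
  (pr : ι → ℕ) (L : J → ℕ → ℕ) (m v : ℕ), 1 ≤ m → SieveData ι J pr L m →
  ∀ (c : (ι → Option J) → ℝ) (x : ℝ), 1 ≤ x →
    ∑ n ∈ (Icc 1 ⌊x⌋₊).filter (fun n => n ≡ v [MOD m]),
        Real.log (x / n) * (∑ σ, c σ * hN L pr σ n) ^ 2 ≤
      x / m * ∑ σ, c σ ^ 2 * mulc pr (fun p => (p : ℝ)) σ +
        (Real.log x + 1) * (∑ σ, |c σ| * mulc pr (fun p => (p : ℝ) + 1) σ) ^ 2

open Classical in
/-- module T2 : approximation of the prime sieve sum by the model -/
def S2Approx : Prop := ∀ (ι J : Type) [Fintype ι] [Fintype J]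
  (pr : ι → ℕ) (L : J → ℕ → ℕ) (m v : ℕ) (i : J) (a b : ℕ), 1 ≤ m → SieveData ι J pr L m →
  1 ≤ a → (∀ n, L i n = a * n + b) → (∀ p : ℕ, p.Prime → p ∣ a → p ∣ m) →
  (a * v + b).Coprime m →
  ∀ (c : (ι → Option J) → ℝ) (R : ℝ), 1 ≤ R →
  (∀ σ, |c σ| ≤ mulc pr (fun p => 1 / ((p : ℝ) - 1)) σ) →
  (∀ σ, c σ ≠ 0 → mulc pr (fun p => (p : ℝ)) σ ≤ R) →
  ∀ x : ℝ, 1 ≤ x → ∃ r : ℕ → ℕ,
    |∑ n ∈ (Icc 1 ⌊x⌋₊).filter (fun n => n ≡ v [MOD m] ∧ ((a * n + b : ℕ) : ℝ) ≤ a * x),
        ArithmeticFunction.vonMangoldt (a * n + b) * Real.log (a * x / ((a * n + b : ℕ) : ℝ)) *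
          (∑ σ, c σ * hNI i L pr σ n) ^ 2
      - psiLog1 (a * x) / (a * Nat.totient m) * QI i pr c| ≤
      (∏ t, (1 + (Fintype.card J : ℝ) / ((pr t : ℝ) - 1)) * ((pr t : ℝ) / ((pr t : ℝ) - 1))) ^ 2 *
      ∑ q ∈ (Icc 1 ⌊R ^ 2⌋₊).filter (fun q => Squarefree q ∧ (r q).Coprime (a * m * q)),
        (3 * (Fintype.card J : ℝ)) ^ q.primeFactors.card *
          (|psiLogAP (a * x) (a * m * q) (r q) - psiLog1 (a * x) / (Nat.totient (a * m * q) : ℝ)| +
            ((a : ℝ) + b) ^ 2 * (Real.log (a * x) + 1))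

open Classical in
/-- module T3 : lower bound for the model quadratic form (tensor product of positive semidefinite
comparisons) -/
def S2Model : Prop := ∀ (ι J : Type) [Fintype ι] [Fintype J]
  (pr : ι → ℕ) (i : J), (∀ t, Fintype.card J + 1 ≤ pr t) → ∀ (c : (ι → Option J) → ℝ),
    ∑ σ ∈ univ.filter (fun σ : ι → Option J => ∀ t, σ t ≠ some i),
      (eI i pr c σ) ^ 2 * mulc pr (fun p => (p : ℝ) - Fintype.card J) σ ≤ QI i pr c

end Pool.Agent.H410R2
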